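import Pool.Agent.K6.H67.QPhi

/-!
# MP_64d585_al, Q2: extension of invariant `(HA, φ)`-neutral subspaces with a prescribed spectrum

`φ` is a nonstandard involution of `ℍ`, `H` is invertible and `φ`-hermitian, `A` (possibly singular)
is `(H, φ)`-skewsymmetric, `N` is an `A`-invariant `(HA, φ)`-neutral subspace, `S₀` the set of the
eigenvalues of `A|N` with nonzero real part, and `S` a c-set of `A` which contains `S₀`. Then there are
`A`-invariant subspaces `L₊, L₋ ⊇ N`, maximal `(HA, φ)`-nonnegative and nonpositive, respectively, such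
that the set of the eigenvalues of `A|L₊`, and the one of `A|L₋`, with nonzero real part is `S`.

Proof. `β⁻¹ x_φ HA y` is an ordinary hermitian form for which `A` is skew. The sum `W` of the root
subspaces for the elements of `S` is neutral and orthogonal to `N`, so that `N + W` is contained in an
invariant maximal nonnegative `L`. If `x ∈ L` is an eigenvector for an eigenvalue `μ ∉ S` with
`Re μ ≠ 0` then `-μ ∈ S` and `x` is neutral, so orthogonal to `W ⊆ L`, which contains the root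
subspace of `-μ`, and to all other root subspaces but this one; hence `HA x = 0`, i.e. `A x = 0`, a
contradiction.
-/

set_option autoImplicit false

namespace Pool.Agent.Results.MP_64d585_al.PrescribedSpectrum

open Quaternion MulOpposite Matrix

/-- `φ` is a nonstandard involution of `ℍ`. -/
structure NonstandardInvolution (φ : ℍ[ℝ] →ₗ[ℝ] ℍ[ℝ]) : Prop where
  mul : ∀ x y, φ (x * y) = φ y * φ x
  invol : ∀ x, φ (φ x) = x
  ne_star : ∃ x, φ x ≠ star x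

/-- The right quaternionic subspaces of `ℍ^n`. -/
abbrev Sub (n : ℕ) : Type := Submodule ℍ[ℝ]ᵐᵒᵖ (Fin n → ℍ[ℝ])

/-- `X_φ`: the transpose of `X` with `φ` applied to every entry. -/
noncomputable def phiT {n : ℕ} (φ : ℍ[ℝ] →ₗ[ℝ] ℍ[ℝ]) (X : Matrix (Fin n) (Fin n) ℍ[ℝ]) :
    Matrix (Fin n) (Fin n) ℍ[ℝ] := Matrix.of fun i j => φ (X j i)

/-- `x_φ G y` -/
noncomputable def pair {n : ℕ} (φ : ℍ[ℝ] →ₗ[ℝ] ℍ[ℝ]) (G : Matrix (Fin n) (Fin n) ℍ[ℝ])
    (x y : Fin n → ℍ[ℝ]) : ℍ[ℝ] := (fun i => φ (x i)) ⬝ᵥ (G *ᵥ y)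

/-- `M` is `A`-invariant. -/
def Invariant {n : ℕ} (A : Matrix (Fin n) (Fin n) ℍ[ℝ]) (M : Sub n) : Prop :=
  ∀ x ∈ M, A *ᵥ x ∈ M

/-- `M` is `(G, φ)`-neutral: `y_φ G x = 0` for all `x, y ∈ M`. -/
def Neutral {n : ℕ} (φ : ℍ[ℝ] →ₗ[ℝ] ℍ[ℝ]) (G : Matrix (Fin n) (Fin n) ℍ[ℝ])
    (M : Sub n) : Prop :=
  ∀ x ∈ M, ∀ y ∈ M, pair φ G y x = 0

/-- `M` is `(G, φ)`-nonnegative: `β⁻¹ x_φ G x` is a nonnegative real number for all `x ∈ M`. -/
def Nonneg {n : ℕ} (φ : ℍ[ℝ] →ₗ[ℝ] ℍ[ℝ]) (β : ℍ[ℝ]) (G : Matrix (Fin n) (Fin n) ℍ[ℝ])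
    (M : Sub n) : Prop :=
  ∀ x ∈ M, ∃ r : ℝ, 0 ≤ r ∧ β⁻¹ * pair φ G x x = (r : ℍ[ℝ])

/-- `M` is `(G, φ)`-nonpositive: `β⁻¹ x_φ G x` is a nonpositive real number for all `x ∈ M`. -/
def Nonpos {n : ℕ} (φ : ℍ[ℝ] →ₗ[ℝ] ℍ[ℝ]) (β : ℍ[ℝ]) (G : Matrix (Fin n) (Fin n) ℍ[ℝ])
    (M : Sub n) : Prop :=
  ∀ x ∈ M, ∃ r : ℝ, r ≤ 0 ∧ β⁻¹ * pair φ G x x = (r : ℍ[ℝ])

/-- `M` has the property `P` and is not properly contained in another subspace with it. -/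
def Maximal {n : ℕ} (P : Sub n → Prop) (M : Sub n) : Prop :=
  P M ∧ ∀ M' : Sub n, M ≤ M' → P M' → M' = M

/-- `a` is an eigenvalue of the restriction of `A` to `M`: `A x = x a` for a nonzero `x ∈ M`. -/
def IsEigenvalue {n : ℕ} (A : Matrix (Fin n) (Fin n) ℍ[ℝ]) (M : Sub n) (a : ℍ[ℝ]) : Prop :=
  ∃ x ∈ M, x ≠ 0 ∧ A *ᵥ x = fun i => x i * a

/-- The set of the eigenvalues of `A|M` with nonzero real part. -/
def Spec {n : ℕ} (A : Matrix (Fin n) (Fin n) ℍ[ℝ]) (M : Sub n) : Set ℍ[ℝ] :=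
  {a | IsEigenvalue A M a ∧ a.re ≠ 0}

/-- The first three properties of a c-set: a set of eigenvalues of `A` with nonzero real parts,
closed under similarity of quaternions, such that `a ∈ S` implies `-a ∉ S`. -/
def PreCSet {n : ℕ} (A : Matrix (Fin n) (Fin n) ℍ[ℝ]) (S : Set ℍ[ℝ]) : Prop :=
  (∀ a ∈ S, IsEigenvalue A ⊤ a) ∧ (∀ a ∈ S, a.re ≠ 0) ∧
    (∀ a ∈ S, ∀ c : ℍ[ℝ], c ≠ 0 → c⁻¹ * a * c ∈ S) ∧ ∀ a ∈ S, -a ∉ S

/-- A c-set of `A`: inclusion-maximal with these properties. -/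
def IsCSet {n : ℕ} (A : Matrix (Fin n) (Fin n) ℍ[ℝ]) (S : Set ℍ[ℝ]) : Prop :=
  PreCSet A S ∧ ∀ S' : Set ℍ[ℝ], PreCSet A S' → S ⊆ S' → S' = S

/-- **Answer to Q2.** For every nonstandard involution `φ`, every `β` with `φ β = -β` and `|β| = 1`,
every invertible `φ`-hermitian `H`, every `(H, φ)`-skewsymmetric `A`, every `A`-invariant
`(HA, φ)`-neutral subspace `N` and every c-set `S` of `A` which contains the set `S₀` of the eigenvalues
of `A|N` with nonzero real part there are `A`-invariant subspaces `L ⊇ N` that are maximal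
`(HA, φ)`-nonnegative and maximal `(HA, φ)`-nonpositive, respectively, such that the set of the
eigenvalues of `A|L` with nonzero real part is `S`. (If `S₀ ⊆ S` then `a ∈ S₀` implies
`-a ∉ S₀`.) -/
theorem result (φ : ℍ[ℝ] →ₗ[ℝ] ℍ[ℝ]) (hφ : NonstandardInvolution φ) (β : ℍ[ℝ])
    (hβ : φ β = -β) (hβ1 : ‖β‖ = 1) (n : ℕ) (H A : Matrix (Fin n) (Fin n) ℍ[ℝ])
    (hH' : IsUnit H) (hH : phiT φ H = H) (hA : H * A = -(phiT φ A * H)) (N : Sub n)
    (hN : Invariant A N) (hneu : Neutral φ (H * A) N) (S : Set ℍ[ℝ]) (hS : IsCSet A S)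
    (h0 : Spec A N ⊆ S) :
    (∃ L : Sub n, N ≤ L ∧ Invariant A L ∧ Maximal (Nonneg φ β (H * A)) L ∧ Spec A L = S) ∧
    (∃ L : Sub n, N ≤ L ∧ Invariant A L ∧ Maximal (Nonpos φ β (H * A)) L ∧ Spec A L = S) :=
  Pool.Agent.K6.H67.QPhi.final φ ⟨hφ.mul, hφ.invol, hφ.ne_star⟩ β hβ hβ1 n H A hH' hH hA N hN
    hneu S hS h0

end Pool.Agent.Results.MP_64d585_al.PrescribedSpectrum
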